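import Pool.Agent.Lib.MP_d36e69_co.Planar

/-!
# A planar graph satisfying `|E(W)| ≤ 2 |W| - 2` for all nonempty `W` need not be an L-contact graph
-/

set_option autoImplicit false

namespace Pool.Agent.Results.MP_d36e69_co.NotLContact

open Pool.Agent.Lib.MP_d36e69_co

/-- **Main theorem.** There is a finite simple graph that has a straight-line plane drawing and
satisfies `|E(W)| ≤ 2 |W| - 2` for every nonempty vertex set `W`, but that is not an L-contact
graph. -/
theorem result : ∃ (V : Type) (_ : Finite V) (G : SimpleGraph V),
    (∃ pos : V → ℝ × ℝ, IsStraightLineDrawing G pos) ∧ IsSparse22 G ∧ ¬ IsLContactGraph G :=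
  main

end Pool.Agent.Results.MP_d36e69_co.NotLContact
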